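import Mathlib

/-!
# Sets of points with few elements: almost every point has only finitely many good approximations
-/

set_option autoImplicit false

namespace Pool.Agent.V5helper64.NR

open MeasureTheory Filter Topology
open scoped ENNReal

theorem summable_exp_sqrt : Summable (fun j : ℕ => Real.exp (-√(((j : ℝ) + 1) * Real.log 2))) := by
  have hl : 0 < Real.log 2 := Real.log_pos one_lt_two
  have hs : Summable (fun j : ℕ => (24 / (Real.log 2) ^ 2) * (1 / ((j : ℝ) + 1) ^ 2)) := by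
    refine Summable.mul_left _ ?_
    have h := (summable_nat_add_iff 1).2 (Real.summable_one_div_nat_pow.2 (one_lt_two))
    exact_mod_cast h
  refine Summable.of_nonneg_of_le (fun j => (Real.exp_pos _).le) (fun j => ?_) hs
  have hj : (0 : ℝ) < (j : ℝ) + 1 := by positivity
  have h1 := Real.pow_div_factorial_le_exp (√(((j : ℝ) + 1) * Real.log 2)) (Real.sqrt_nonneg _) 4
  have h2 : √(((j : ℝ) + 1) * Real.log 2) ^ 4 = (((j : ℝ) + 1) * Real.log 2) ^ 2 := by
    rw [show (4 : ℕ) = 2 * 2 from rfl, pow_mul, Real.sq_sqrt (by positivity)]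
  rw [h2] at h1
  have h3 : ((Nat.factorial 4 : ℕ) : ℝ) = 24 := by norm_num [Nat.factorial]
  rw [h3] at h1
  have h4 : 0 < (((j : ℝ) + 1) * Real.log 2) ^ 2 := by positivity
  rw [Real.exp_neg]
  calc (Real.exp (√(((j : ℝ) + 1) * Real.log 2)))⁻¹ ≤ ((((j : ℝ) + 1) * Real.log 2) ^ 2 / 24)⁻¹ :=
        inv_anti₀ (by positivity) h1
    _ = 24 / (Real.log 2) ^ 2 * (1 / ((j : ℝ) + 1) ^ 2) := by
        field_simp

/-- the Borel-Cantelli lemma for Hausdorff measures -/
theorem hausdorff_null {S M : Type*} [Countable S] [MetricSpace M] [MeasurableSpace M]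
    [BorelSpace M] (φ : S → M) (ρ : S → ℝ) (hρ : ∀ t, 0 ≤ ρ t) {s : ℝ} (hs : 0 < s)
    (hsum : ∑' t, ENNReal.ofReal ((2 * ρ t) ^ s) ≠ ⊤) :
    μH[s] {ξ | {t | dist ξ (φ t) ≤ ρ t}.Infinite} = 0 := by
  classical
  set g : S → ℝ≥0∞ := fun t => ENNReal.ofReal ((2 * ρ t) ^ s) with hg
  have htail := ENNReal.tendsto_tsum_compl_atTop_zero hsum
  set r : Finset S → ℝ≥0∞ := fun F => (∑' t : {t // t ∉ F}, g t) ^ (1 / s) with hr
  have hrt : Tendsto r atTop (𝓝 0) := by
    have h4 : Tendsto (fun x : ℝ≥0∞ => x ^ (1 / s)) (𝓝 0) (𝓝 (0 ^ (1 / s))) :=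
      (ENNReal.continuous_rpow_const).tendsto 0
    rw [ENNReal.zero_rpow_of_pos (by positivity)] at h4
    exact h4.comp htail
  have hdiam : ∀ t, Metric.ediam (Metric.closedBall (φ t) (ρ t)) ^ s ≤ g t := by
    intro t
    rw [hg]
    simp only
    rw [← ENNReal.ofReal_rpow_of_nonneg (mul_nonneg two_pos.le (hρ t)) hs.le]
    apply ENNReal.rpow_le_rpow _ hs.le
    refine Metric.ediam_le (fun x hx y hy => ?_)
    rw [edist_dist]
    apply ENNReal.ofReal_le_ofReal
    have h5 := Metric.mem_closedBall.1 hx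
    have h6 := Metric.mem_closedBall.1 hy
    calc dist x y ≤ dist x (φ t) + dist y (φ t) := dist_triangle_right _ _ _
      _ ≤ 2 * ρ t := by linarith
  have key := Measure.hausdorffMeasure_le_liminf_tsum (X := M) (β := Finset S)
    (ι := fun F => {t // t ∉ F}) s {ξ | {t | dist ξ (φ t) ≤ ρ t}.Infinite} (l := atTop) r hrt
    (fun F t => Metric.closedBall (φ t) (ρ t))
    (Eventually.of_forall fun F t => by
      have h7 : g t ≤ ∑' t : {t // t ∉ F}, g t := ENNReal.le_tsum t
      have h8 := (hdiam t).trans h7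
      have h9 := ENNReal.rpow_le_rpow h8 (z := 1 / s) (by positivity)
      rwa [← ENNReal.rpow_mul, mul_one_div_cancel hs.ne', ENNReal.rpow_one] at h9)
    (Eventually.of_forall fun F x hx => by
      have hx' : {t | dist x (φ t) ≤ ρ t}.Infinite := hx
      obtain ⟨t, ht, htF⟩ := hx'.exists_notMem_finset F
      rw [Set.mem_iUnion]
      exact ⟨⟨t, htF⟩, Metric.mem_closedBall.2 ht⟩)
  have hlim : liminf (fun F : Finset S => ∑' t : {t // t ∉ F},
      Metric.ediam (Metric.closedBall (φ t) (ρ t)) ^ s) atTop ≤ 0 := by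
    rw [← htail.liminf_eq]
    exact liminf_le_liminf (Eventually.of_forall fun F => ENNReal.tsum_le_tsum fun t => hdiam t)
  exact le_antisymm (key.trans hlim) zero_le

/-- If `E` has at most `C B ^ D exp (- √ log B)` elements with `h ≤ B`, then for `s > 0` almost every
point with respect to the `s`-dimensional Hausdorff measure has only finitely many approximations by
elements of `E` with an error at most `c h ^ (- D / s)`. -/
theorem null_of_count {ι M : Type*} [MetricSpace M] [MeasurableSpace M] [BorelSpace M]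
    (E : Set ι) (h : ι → ℝ) (hh : ∀ x ∈ E, 1 ≤ h x) {D C : ℝ} (hD : 0 ≤ D)
    (hcount : ∀ B : ℝ, 1 ≤ B → {x | x ∈ E ∧ h x ≤ B}.Finite ∧
      ({x | x ∈ E ∧ h x ≤ B}.ncard : ℝ) ≤ C * B ^ D * Real.exp (-√(Real.log B)))
    (φ : ι → M) {s : ℝ} (hs : 0 < s) (c : ℝ) :
    μH[s] {ξ | {x | x ∈ E ∧ dist ξ (φ x) ≤ c * h x ^ (-(D / s))}.Infinite} = 0 := by
  classical
  have hcount' : Countable E := by
    have h2 : E = ⋃ k : ℕ, {x | x ∈ E ∧ h x ≤ (k : ℝ) + 1} := by
      ext t
      simp only [Set.mem_iUnion, Set.mem_ofPred_eq]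
      constructor
      · intro ht
        obtain ⟨k, hk⟩ := exists_nat_ge (h t)
        exact ⟨k, ht, by linarith⟩
      · rintro ⟨k, hk, -⟩
        exact hk
    rw [h2]
    exact (Set.countable_iUnion fun k => (hcount _ (by
      have : (0 : ℝ) ≤ k := Nat.cast_nonneg k
      linarith)).1.countable).to_subtype
  set c' : ℝ := |c| with hc'
  have hc0 : 0 ≤ c' := abs_nonneg c
  -- the radii
  set ρ : E → ℝ := fun t => c' * h t ^ (-(D / s)) with hρ
  have h0 : ∀ t : E, 0 < h t := fun t => lt_of_lt_of_le one_pos (hh t t.2)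
  have hρ0 : ∀ t, 0 ≤ ρ t := fun t => mul_nonneg hc0 (Real.rpow_nonneg (h0 t).le _)
  set K : ℝ := (2 * c') ^ s * (|C| * 2 ^ D) with hK
  have hK0 : 0 ≤ K := by positivity
  have hlog2 : 0 < Real.log 2 := Real.log_pos one_lt_two
  -- the levels
  set lev : E → ℕ := fun t => ⌊Real.log (h t) / Real.log 2⌋₊ with hlev
  have hlev1 : ∀ t : E, (2 : ℝ) ^ (lev t : ℝ) ≤ h t := by
    intro t
    have h1 : (0 : ℝ) ≤ Real.log (h t) / Real.log 2 := div_nonneg (Real.log_nonneg (hh t t.2)) hlog2.le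
    have h2 := Nat.floor_le h1
    rw [← Real.log_le_log_iff (by positivity) (h0 t), Real.log_rpow two_pos]
    rwa [le_div_iff₀ hlog2] at h2
  have hlev2 : ∀ t : E, h t ≤ (2 : ℝ) ^ ((lev t : ℝ) + 1) := by
    intro t
    have h2 := (Nat.lt_floor_add_one (Real.log (h t) / Real.log 2)).le
    rw [← Real.log_le_log_iff (h0 t) (by positivity), Real.log_rpow two_pos]
    rwa [div_le_iff₀ hlog2] at h2
  have hsum : ∑' t, ENNReal.ofReal ((2 * ρ t) ^ s) ≠ ⊤ := by
    rw [← ENNReal.tsum_fiberwise _ lev]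
    have hbound : ∀ j : ℕ, ∑' b : lev ⁻¹' {j}, ENNReal.ofReal ((2 * ρ (b : E)) ^ s) ≤
        ENNReal.ofReal (K * Real.exp (-√(((j : ℝ) + 1) * Real.log 2))) := by
      intro j
      obtain ⟨hfin, hcard⟩ := hcount ((2 : ℝ) ^ ((j : ℝ) + 1)) (Real.one_le_rpow one_le_two (by positivity))
      have hmaps : ∀ t : E, t ∈ lev ⁻¹' {j} → (t : ι) ∈ {x | x ∈ E ∧ h x ≤ (2 : ℝ) ^ ((j : ℝ) + 1)} := by
        intro t ht
        have e1 : lev t = j := ht
        refine ⟨t.2, ?_⟩
        have := hlev2 t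
        rwa [e1] at this
      have hfinj : (lev ⁻¹' {j}).Finite := by
        refine Set.Finite.of_finite_image (f := fun t : E => (t : ι)) (hfin.subset ?_)
          Subtype.val_injective.injOn
        rintro _ ⟨t, ht, rfl⟩
        exact hmaps t ht
      have hcardj : ((lev ⁻¹' {j}).ncard : ℝ) ≤
          ({x | x ∈ E ∧ h x ≤ (2 : ℝ) ^ ((j : ℝ) + 1)}.ncard : ℝ) := by
        exact_mod_cast Set.ncard_le_ncard_of_injOn (fun t : E => (t : ι)) hmaps
          Subtype.val_injective.injOn hfin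
      have hterm : ∀ b : lev ⁻¹' {j}, ENNReal.ofReal ((2 * ρ (b : E)) ^ s) ≤
          ENNReal.ofReal ((2 * c') ^ s * (2 : ℝ) ^ (-((j : ℝ) * D))) := by
        intro b
        apply ENNReal.ofReal_le_ofReal
        have e1 : lev (b : E) = j := b.2
        have e2 := hlev1 (b : E)
        rw [e1] at e2
        have e3 : (2 * ρ (b : E)) ^ s = (2 * c') ^ s * (h (b : E)) ^ (-D) := by
          rw [hρ]
          simp only
          rw [← mul_assoc, Real.mul_rpow (by positivity) (Real.rpow_nonneg (h0 _).le _),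
            ← Real.rpow_mul (h0 _).le]
          congr 2
          field_simp
        rw [e3]
        refine mul_le_mul_of_nonneg_left ?_ (by positivity)
        have e4 : (2 : ℝ) ^ (-((j : ℝ) * D)) = ((2 : ℝ) ^ (j : ℝ)) ^ (-D) := by
          rw [← Real.rpow_mul two_pos.le]
          congr 1
          ring
        rw [e4]
        exact Real.rpow_le_rpow_of_nonpos (by positivity) e2 (by linarith)
      have : Fintype (lev ⁻¹' {j}) := hfinj.fintype
      rw [tsum_fintype]
      refine (Finset.sum_le_card_nsmul _ _ _ fun b _ => hterm b).trans ?_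
      rw [nsmul_eq_mul]
      have e5 : ((Finset.univ : Finset (lev ⁻¹' {j})).card : ℝ≥0∞) =
          ENNReal.ofReal ((lev ⁻¹' {j}).ncard : ℝ) := by
        rw [ENNReal.ofReal_natCast, Finset.card_univ, Set.ncard_eq_toFinset_card' (lev ⁻¹' {j}),
          Set.toFinset_card]
      rw [e5, ← ENNReal.ofReal_mul (Nat.cast_nonneg _)]
      apply ENNReal.ofReal_le_ofReal
      have e6 : Real.log ((2 : ℝ) ^ ((j : ℝ) + 1)) = ((j : ℝ) + 1) * Real.log 2 :=
        Real.log_rpow two_pos _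
      rw [e6] at hcard
      have e7 : C * ((2 : ℝ) ^ ((j : ℝ) + 1)) ^ D * Real.exp (-√(((j : ℝ) + 1) * Real.log 2)) ≤
          |C| * ((2 : ℝ) ^ ((j : ℝ) + 1)) ^ D * Real.exp (-√(((j : ℝ) + 1) * Real.log 2)) := by
        refine mul_le_mul_of_nonneg_right (mul_le_mul_of_nonneg_right (le_abs_self C) (by positivity))
          (Real.exp_pos _).le
      refine (mul_le_mul_of_nonneg_right (hcardj.trans (hcard.trans e7)) (by positivity)).trans ?_
      have e8 : ((2 : ℝ) ^ ((j : ℝ) + 1)) ^ D * (2 : ℝ) ^ (-((j : ℝ) * D)) = 2 ^ D := by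
        rw [← Real.rpow_mul two_pos.le, ← Real.rpow_add two_pos]
        congr 1
        ring
      rw [hK]
      apply le_of_eq
      calc |C| * ((2 : ℝ) ^ ((j : ℝ) + 1)) ^ D * Real.exp (-√(((j : ℝ) + 1) * Real.log 2)) *
            ((2 * c') ^ s * (2 : ℝ) ^ (-((j : ℝ) * D)))
          = (2 * c') ^ s * (|C| * (((2 : ℝ) ^ ((j : ℝ) + 1)) ^ D * (2 : ℝ) ^ (-((j : ℝ) * D)))) *
            Real.exp (-√(((j : ℝ) + 1) * Real.log 2)) := by ring
        _ = _ := by rw [e8]
    refine ne_top_of_le_ne_top ?_ (ENNReal.tsum_le_tsum hbound)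
    rw [← ENNReal.ofReal_tsum_of_nonneg (fun j => mul_nonneg hK0 (Real.exp_pos _).le)
      (summable_exp_sqrt.mul_left K)]
    exact ENNReal.ofReal_ne_top
  have hnull := hausdorff_null (fun t : E => φ t) ρ hρ0 hs hsum
  refine measure_mono_null ?_ hnull
  intro ξ hξ
  have hξ' : {x | x ∈ E ∧ dist ξ (φ x) ≤ c * h x ^ (-(D / s))}.Infinite := hξ
  show {t : E | dist ξ (φ t) ≤ ρ t}.Infinite
  intro hfin
  apply hξ'
  refine (hfin.image (fun t : E => (t : ι))).subset ?_
  rintro x ⟨hx1, hx2⟩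
  refine ⟨⟨x, hx1⟩, ?_, rfl⟩
  show dist ξ (φ x) ≤ c' * h x ^ (-(D / s))
  refine hx2.trans (mul_le_mul_of_nonneg_right (le_abs_self c) (Real.rpow_nonneg ?_ _))
  exact (lt_of_lt_of_le one_pos (hh x hx1)).le

end Pool.Agent.V5helper64.NR
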