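import Pool.Agent.R559.NP.Near3

/-!
# Increasing families of finite sets near a given point
-/

set_option autoImplicit false

namespace Pool.Agent.V5helper64.NR

open Filter Topology

/-- increasing families of finite sets `F j y T`, of sizes at most `C T ^ (1 / (j + 1))` -/
theorem near_sets {W X Y : Type} [MetricSpace X] [Countable Y]
    {F : ℕ → Y → ℕ → Set W} (hmono : ∀ j y t t', t ≤ t' → F j y t ⊆ F j y t')
    (hcount : ∀ j y, ∃ C : ℝ, ∀ T : ℕ, 1 ≤ T →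
      (F j y T).Finite ∧ (((F j y T).ncard : ℕ) : ℝ) ≤ C * (T : ℝ) ^ (1 / ((j : ℝ) + 1)))
    (φ : W → X) :
    ∃ E : Set X, dimH E = 0 ∧ ∀ ξ : X, ξ ∉ E → ∀ τ : ℝ, 0 < τ →
      ∃ j : ℕ, ∀ (y : Y) (c : ℝ),
        {w | ∃ T : ℕ, 1 ≤ T ∧ w ∈ F j y T ∧ dist (φ w) ξ ≤ c * (T : ℝ) ^ (-τ)}.Finite := by
  classical
  let U : Set W := ⋃ (j : ℕ), ⋃ (y : Y), ⋃ (T : ℕ), {w | 1 ≤ T ∧ w ∈ F j y T}
  have hU : U.Countable := by
    refine Set.countable_iUnion fun j => Set.countable_iUnion fun y => Set.countable_iUnion fun T => ?_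
    by_cases hT : 1 ≤ T
    · obtain ⟨C, hC⟩ := hcount j y
      exact ((hC T hT).1.subset fun w hw => hw.2).countable
    · have h1 : {w | 1 ≤ T ∧ w ∈ F j y T} = ∅ := by
        ext w
        simp only [Set.mem_ofPred_eq, Set.mem_empty_iff_false, iff_false]
        exact fun h => hT h.1
      rw [h1]
      exact Set.countable_empty
  have hUc : Countable U := hU.to_subtype
  have hmemU : ∀ (j : ℕ) (y : Y) (T : ℕ) (w : W), 1 ≤ T → w ∈ F j y T → w ∈ U := by
    intro j y T w hT hw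
    exact Set.mem_iUnion.2 ⟨j, Set.mem_iUnion.2 ⟨y, Set.mem_iUnion.2 ⟨T, hT, hw⟩⟩⟩
  obtain ⟨E, hE, hE'⟩ := Pool.Agent.R559.NP.near_zero_lvl (Z := U) (Y := Y) (X := X)
    (F := fun j y T => {z : U | z.1 ∈ F j y T}) (fun j y t t' htt z hz => hmono j y t t' htt hz)
    (s := fun j => 1 / ((j : ℝ) + 1)) (fun j => by positivity) tendsto_one_div_add_atTop_nhds_zero_nat
    (by
      intro j y
      obtain ⟨C, hC⟩ := hcount j y
      refine ⟨C, fun T hT => ?_⟩
      obtain ⟨h1, h2⟩ := hC T hT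
      have hfin : {z : U | z.1 ∈ F j y T}.Finite :=
        Set.Finite.of_finite_image (f := fun z : U => z.1)
          (h1.subset (by rintro _ ⟨z, hz, rfl⟩; exact hz)) Subtype.val_injective.injOn
      refine ⟨hfin, le_trans ?_ h2⟩
      exact_mod_cast Set.ncard_le_ncard_of_injOn (fun z : U => z.1) (fun z hz => hz)
        Subtype.val_injective.injOn h1)
    (fun _ z => φ z.1)
  refine ⟨E, hE, fun ξ hξ τ hτ => ?_⟩
  obtain ⟨j, hj⟩ := hE' ξ hξ τ hτ
  refine ⟨j, fun y c => ?_⟩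
  refine ((hj y c).image (fun z : U => z.1)).subset ?_
  rintro w ⟨T, hT, hw, hd⟩
  exact ⟨⟨w, hmemU j y T w hT hw⟩, ⟨T, hT, hw, hd⟩, rfl⟩

end Pool.Agent.V5helper64.NR
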