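import Pool.Agent.Results.MP_ef6a16_nt.FewPointsAllFields
import Pool.Agent.V5helper64.NR.Sets

/-!
# Fermat's equation over all number fields of bounded degree near a given point

Let `φ` be any map from the complex projective plane (the set of the lines of `ℂ ^ 3`) to a metric space
`X`, for example the coordinates `(a / c, b / c)`.

**Theorem.** (1) There is a set `E ⊆ X` of Hausdorff dimension zero such that for all `ξ ∈ X` outside `E` and
all `τ > 0`, `P`, `κ` there are `R` and `δ > 0` such that for every `C` there are only finitely many points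
`W = (a : b : c)` of the plane with the following property: for some `Y ≥ 1` the distance of `φ(W)`
and `ξ` is at most `C Y ^ (-τ)`, and `W` is the image, under an embedding `K → ℂ` of a number field `K` of
degree at most `κ`, of a point with `a b c ≠ 0` of a Fermat curve `a ^ p + b ^ p + c ^ p = 0` with an exponent `p`
between `R` and `Y ^ δ`, such that `a` and `b` are products of powers of `P` elements of `K` of absolute
height at most `Y`, with exponents of absolute value at most `Y ^ δ`. The set `E` does not depend on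
`τ`, `P`, `κ`.

So the points are of height up to `exp (Y ^ δ)`, and their distance from `ξ` is only at most `Y ^ (-τ)`,
a power of the logarithm of the height; this includes (`P = 1`, exponents `0` and `1`) all points on all
Fermat curves of degree `p ≥ R` of height `H ≥ p ^ (1 / δ)` at a distance at most `H ^ (-τ)` from `ξ`, over all
number fields of degree at most `κ`.

(2) The same for the equations `∑ i, u i * s i * x i ^ d = v * s₀ * c * z ^ r` in any number `n` of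
variables of the starting file `FewPointsAllFields`, with arbitrary coefficients `s i`, `s₀` of polynomial
height and fixed integers `u i ≠ 0`, `v`, with one set `E` for all `u`, `v`.

Proof. The starting result `FewPointsAllFields` (with its many authors) bounds the number of these points by
`Y ^ ε`, if `R` and `1 / δ` are large. The points of `X` near infinitely many of them, at the distance
`C Y ^ (-τ)`, are a set of dimension at most `ε / τ` (helper559); the union over `ε = 1 / (j + 1)` is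
organised such that one set of dimension zero is enough.
-/

set_option autoImplicit false

namespace Pool.Agent.V5helper64.NR.Fermat

open Pool.Agent.Results.MP_ef6a16_nt
open Pool.Agent.Results.MP_ef6a16_nt.FewPointsAllFields (Sol Fermat)

lemma rpow_mono {Y Y' : ℕ} {δ : ℝ} (hδ : 0 ≤ δ) (h : Y ≤ Y') : (Y : ℝ) ^ δ ≤ (Y' : ℝ) ^ δ :=
  Real.rpow_le_rpow (Nat.cast_nonneg _) (by exact_mod_cast h) hδ

lemma pow_mono' {Y Y' : ℕ} (n : ℕ) (h : Y ≤ Y') : (Y : ℝ) ^ n ≤ (Y' : ℝ) ^ n :=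
  pow_le_pow_left₀ (Nat.cast_nonneg _) (by exact_mod_cast h) n

lemma fermat_mono {P κ R : ℕ} {δ : ℝ} (hδ : 0 ≤ δ) {Y Y' : ℕ} (h : Y ≤ Y') {a b c : ℂ}
    (hF : Fermat P κ R δ Y a b c) : Fermat P κ R δ Y' a b c := by
  obtain ⟨K, i1, i2, σ, y, f, g, z, p, h1, h2, h3, h4, h5, h6, h7⟩ := hF
  exact ⟨K, i1, i2, σ, y, f, g, z, p, h1, h2, h3.trans (rpow_mono hδ h),
    fun j => (h4 j).trans (rpow_mono hδ h), fun j => (h5 j).trans (rpow_mono hδ h),
    fun j => ⟨(h6 j).1, (h6 j).2.trans (pow_mono' _ h)⟩, h7⟩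

lemma sol_mono {P κ E R : ℕ} {δ : ℝ} (hδ : 0 ≤ δ) {Y Y' : ℕ} (h : Y ≤ Y') {n : ℕ} {u : Fin n → ℤ}
    {v : ℤ} {x : Fin n → ℂ} (hS : Sol P κ E R δ Y u v x) : Sol P κ E R δ Y' u v x := by
  obtain ⟨K, i1, i2, σ, y, s, s₀, z, f, e, d, r, h1, h2, h3, h4, h5, h6, h7, h8, h9, h10, h11, h12⟩ := hS
  have hE : ((Y : ℝ) ^ E) ^ Module.finrank ℚ K ≤ ((Y' : ℝ) ^ E) ^ Module.finrank ℚ K :=
    pow_le_pow_left₀ (by positivity) (pow_mono' E h) _
  exact ⟨K, i1, i2, σ, y, s, s₀, z, f, e, d, r, h1, h2, h3.trans (rpow_mono hδ h), h4,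
    h5.trans (rpow_mono hδ h), fun i j => (h6 i j).trans (rpow_mono hδ h),
    fun j => (h7 j).trans (rpow_mono hδ h), fun j => ⟨(h8 j).1, (h8 j).2.trans (pow_mono' _ h)⟩,
    fun i => ⟨(h9 i).1, (h9 i).2.trans hE⟩, h10, h11.trans hE, h12⟩

theorem result :
    -- all Fermat curves over all number fields of degree at most `κ`
    (∀ (X : Type) [MetricSpace X] (φ : Submodule ℂ (Fin 3 → ℂ) → X),
      ∃ E : Set X, dimH E = 0 ∧ ∀ ξ : X, ξ ∉ E → ∀ τ : ℝ, 0 < τ → ∀ P κ : ℕ,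
        ∃ (R : ℕ) (δ : ℝ), 0 < δ ∧ ∀ C : ℝ,
          {W : Submodule ℂ (Fin 3 → ℂ) | ∃ Y : ℕ, 1 ≤ Y ∧
            (∃ a b c, Fermat P κ R δ Y a b c ∧ W = Submodule.span ℂ {![a, b, c]}) ∧
            dist (φ W) ξ ≤ C * (Y : ℝ) ^ (-τ)}.Finite) ∧
    -- equations in any number of variables, with coefficients
    ∀ n : ℕ, 1 ≤ n → ∀ (X : Type) [MetricSpace X] (φ : Submodule ℂ (Fin n → ℂ) → X),
      ∃ E : Set X, dimH E = 0 ∧ ∀ ξ : X, ξ ∉ E → ∀ τ : ℝ, 0 < τ → ∀ P κ A : ℕ,
        ∃ (R : ℕ) (δ : ℝ), 0 < δ ∧ ∀ (u : Fin n → ℤ) (v : ℤ), (∀ i, u i ≠ 0) → ∀ C : ℝ,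
          {W : Submodule ℂ (Fin n → ℂ) | ∃ Y : ℕ, 1 ≤ Y ∧
            (∃ x, Sol P κ A R δ Y u v x ∧ W = Submodule.span ℂ {x}) ∧
            dist (φ W) ξ ≤ C * (Y : ℝ) ^ (-τ)}.Finite := by
  classical
  constructor
  · intro X _ φ
    have hres := fun (j : ℕ) (y : ℕ × ℕ) => (FewPointsAllFields.result y.1 y.2 (1 / ((j : ℝ) + 1))
      (by positivity)).1
    choose R δ hδ hfin using hres
    obtain ⟨E, hE, hE'⟩ := Pool.Agent.V5helper64.NR.near_sets (Y := ℕ × ℕ)
      (F := fun j y T => {W : Submodule ℂ (Fin 3 → ℂ) | ∃ a b c,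
        Fermat y.1 y.2 (R j y) (δ j y) T a b c ∧ W = Submodule.span ℂ {![a, b, c]}})
      (by
        rintro j y t t' htt W ⟨a, b, c, h1, h2⟩
        exact ⟨a, b, c, fermat_mono (hδ j y).le htt h1, h2⟩)
      (fun j y => ⟨1, fun T hT => ⟨(hfin j y T hT).1, by rw [one_mul]; exact (hfin j y T hT).2⟩⟩) φ
    refine ⟨E, hE, fun ξ hξ τ hτ P κ => ?_⟩
    obtain ⟨j, hj⟩ := hE' ξ hξ τ hτ
    exact ⟨R j (P, κ), δ j (P, κ), hδ j (P, κ), fun C => hj (P, κ) C⟩
  · intro n hn X _ φ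
    have hres := fun (j : ℕ) (y : ℕ × ℕ × ℕ) => (FewPointsAllFields.result y.1 y.2.1
      (1 / ((j : ℝ) + 1)) (by positivity)).2 n y.2.2 hn
    choose R δ hδ hfin using hres
    obtain ⟨E, hE, hE'⟩ := Pool.Agent.V5helper64.NR.near_sets
      (Y := (ℕ × ℕ × ℕ) × {u : Fin n → ℤ // ∀ i, u i ≠ 0} × ℤ)
      (F := fun j y T => {W : Submodule ℂ (Fin n → ℂ) | ∃ x,
        Sol y.1.1 y.1.2.1 y.1.2.2 (R j y.1) (δ j y.1) T y.2.1.1 y.2.2 x ∧ W = Submodule.span ℂ {x}})
      (by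
        rintro j y t t' htt W ⟨x, h1, h2⟩
        exact ⟨x, sol_mono (hδ j y.1).le htt h1, h2⟩)
      (by
        rintro j ⟨y, ⟨u, hu⟩, v⟩
        -- a height from which on the coefficients are small
        have hd := hδ j y
        have htend : Filter.Tendsto (fun T : ℕ => Real.exp ((T : ℝ) ^ (δ j y))) Filter.atTop
            Filter.atTop :=
          Real.tendsto_exp_atTop.comp ((tendsto_rpow_atTop hd).comp tendsto_natCast_atTop_atTop)
        obtain ⟨T₀, hT₀⟩ := Filter.eventually_atTop.1 ((htend.eventually_ge_atTop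
          (∑ i, ((|u i| : ℤ) : ℝ) + ((|v| : ℤ) : ℝ))).and (Filter.eventually_ge_atTop 1))
        have hb : ∀ T, T₀ ≤ T → (∀ i, u i ≠ 0 ∧ ((|u i| : ℤ) : ℝ) ≤ Real.exp ((T : ℝ) ^ (δ j y))) ∧
            ((|v| : ℤ) : ℝ) ≤ Real.exp ((T : ℝ) ^ (δ j y)) := by
          intro T hT
          have h1 := (hT₀ T hT).1
          have h2 : ∀ i, (0 : ℝ) ≤ ((|u i| : ℤ) : ℝ) := fun i => by exact_mod_cast abs_nonneg (u i)
          have h3 : (0 : ℝ) ≤ ((|v| : ℤ) : ℝ) := by exact_mod_cast abs_nonneg v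
          have h4 : 0 ≤ ∑ i, ((|u i| : ℤ) : ℝ) := Finset.sum_nonneg fun i _ => h2 i
          refine ⟨fun i => ⟨hu i, ?_⟩, by linarith⟩
          have h5 : ((|u i| : ℤ) : ℝ) ≤ ∑ i, ((|u i| : ℤ) : ℝ) :=
            Finset.single_le_sum (f := fun i => ((|u i| : ℤ) : ℝ)) (fun i _ => h2 i) (Finset.mem_univ i)
          linarith
        have hT₀1 : 1 ≤ T₀ := (hT₀ T₀ le_rfl).2
        refine ⟨(T₀ : ℝ) ^ (1 / ((j : ℝ) + 1)), fun T hT => ?_⟩
        -- the level `T * T₀`
        have hle : T ≤ T * T₀ := Nat.le_mul_of_pos_right _ hT₀1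
        have hge : T₀ ≤ T * T₀ := Nat.le_mul_of_pos_left _ hT
        obtain ⟨h1, h2⟩ := hfin j y (T * T₀) (hT.trans hle) u v (hb _ hge).1 (hb _ hge).2
        have hsub : {W : Submodule ℂ (Fin n → ℂ) | ∃ x,
            Sol y.1 y.2.1 y.2.2 (R j y) (δ j y) T u v x ∧ W = Submodule.span ℂ {x}} ⊆
            {W : Submodule ℂ (Fin n → ℂ) | ∃ x,
            Sol y.1 y.2.1 y.2.2 (R j y) (δ j y) (T * T₀) u v x ∧ W = Submodule.span ℂ {x}} := by
          rintro W ⟨x, h3, h4⟩
          exact ⟨x, sol_mono hd.le hle h3, h4⟩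
        refine ⟨h1.subset hsub, ?_⟩
        have h5 : (({W : Submodule ℂ (Fin n → ℂ) | ∃ x,
            Sol y.1 y.2.1 y.2.2 (R j y) (δ j y) T u v x ∧ W = Submodule.span ℂ {x}}.ncard : ℕ) : ℝ) ≤
            ({W : Submodule ℂ (Fin n → ℂ) | ∃ x,
            Sol y.1 y.2.1 y.2.2 (R j y) (δ j y) (T * T₀) u v x ∧
              W = Submodule.span ℂ {x}}.ncard : ℕ) := by
          exact_mod_cast Set.ncard_le_ncard hsub h1
        refine h5.trans (h2.trans (le_of_eq ?_))
        push_cast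
        rw [Real.mul_rpow (by positivity) (by positivity), mul_comm]) φ
    refine ⟨E, hE, fun ξ hξ τ hτ P κ A => ?_⟩
    obtain ⟨j, hj⟩ := hE' ξ hξ τ hτ
    exact ⟨R j (P, κ, A), δ j (P, κ, A), hδ j (P, κ, A), fun u v hu C =>
      hj ((P, κ, A), ⟨u, hu⟩, v) C⟩

end Pool.Agent.V5helper64.NR.Fermat
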